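import Mathlib
import Pool.Agent.Q31.GLV.Stm
set_option autoImplicit false

namespace Pool.Agent.Q103.GLV
open Pool.Agent.Q31.GLV
open Module Cardinal Submodule

theorem t_SHQ : S_SHQ := by
  intro F V ι _ _ _ e h c hc he hsh hker
  set R : Submodule F V := LinearMap.range ((h : V →ₗ[F] V) - c • LinearMap.id) with hR
  -- the images of the e (i, 0) are independent
  have hli : LinearIndependent F (fun i : ι => R.mkQ (e (i, 0))) := by
    rw [linearIndependent_iff]
    intro a ha
    have h1 : R.mkQ (Finsupp.linearCombination F (fun i : ι => e (i, 0)) a) = 0 := by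
      rw [Finsupp.apply_linearCombination]
      exact ha
    rw [Submodule.mkQ_apply, Submodule.Quotient.mk_eq_zero] at h1
    obtain ⟨v, hv⟩ := h1
    have hv' : h v - c • v = Finsupp.linearCombination F (fun i : ι => e (i, 0)) a := by
      rw [← hv]
      simp
    have e1 : Finsupp.linearCombination F (fun i : ι => e (i, 0)) a =
        Finsupp.linearCombination F e (Finsupp.mapDomain (fun i : ι => (i, (0 : ℤ))) a) := by
      rw [Finsupp.linearCombination_mapDomain]
      rfl
    have hvU : v ∈ span F (Set.range e) := by
      apply hker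
      rw [hv', e1]
      exact Finsupp.mem_span_range_iff_exists_finsupp.2 ⟨_, rfl⟩
    obtain ⟨b, hb⟩ := Finsupp.mem_span_range_iff_exists_finsupp.1 hvU
    have hb' : v = Finsupp.linearCombination F e b := hb.symm
    have e2 : h v = Finsupp.linearCombination F e
        (Finsupp.mapDomain (fun p : ι × ℤ => (p.1, p.2 + 1)) b) := by
      rw [Finsupp.linearCombination_mapDomain, hb']
      have := Finsupp.apply_linearCombination F (h : V →ₗ[F] V) e b
      rw [LinearEquiv.coe_coe] at this
      rw [this]
      congr 2
      funext p
      exact hsh p.1 p.2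
    have e3 : Finsupp.mapDomain (fun i : ι => (i, (0 : ℤ))) a =
        Finsupp.mapDomain (fun p : ι × ℤ => (p.1, p.2 + 1)) b - c • b := by
      apply he
      rw [map_sub, map_smul, ← e1, ← e2, ← hb']
      exact hv'.symm
    let Ψ : (ι × ℤ →₀ F) →ₗ[F] (ι →₀ F) :=
      Finsupp.linearCombination F (fun p : ι × ℤ => Finsupp.single p.1 (c ^ p.2))
    have e4 : Ψ (Finsupp.mapDomain (fun i : ι => (i, (0 : ℤ))) a) = a := by
      show Finsupp.linearCombination F _ _ = _
      rw [Finsupp.linearCombination_mapDomain, Finsupp.linearCombination_apply]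
      have : ∀ i (x : F), x • ((fun p : ι × ℤ => Finsupp.single p.1 (c ^ p.2)) ∘
          fun i : ι => (i, (0 : ℤ))) i = Finsupp.single i x := by
        intro i x
        simp
      simp only [this]
      exact Finsupp.sum_single a
    have e5 : Ψ (Finsupp.mapDomain (fun p : ι × ℤ => (p.1, p.2 + 1)) b) = c • Ψ b := by
      show Finsupp.linearCombination F _ _ = c • Finsupp.linearCombination F _ _
      rw [Finsupp.linearCombination_mapDomain, Finsupp.linearCombination_apply,
        Finsupp.linearCombination_apply, Finsupp.smul_sum]
      refine Finsupp.sum_congr fun p _ => ?_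
      simp only [Function.comp, Finsupp.smul_single, smul_eq_mul]
      congr 1
      rw [zpow_add_one₀ hc]
      ring
    have e6 := congrArg Ψ e3
    rw [e4, map_sub, map_smul, e5, sub_self] at e6
    exact e6
  exact hli.cardinal_le_rank

end Pool.Agent.Q103.GLV
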